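import Mathlib

/-!
# An injective holomorphic function has nonvanishing derivative
-/

open Complex Metric Set Filter Topology

namespace H50.AT

theorem deriv_ne_zero_of_injOn {f : ℂ → ℂ} {U : Set ℂ} (hU : IsOpen U)
    (hf : DifferentiableOn ℂ f U) (hi : InjOn f U) {z : ℂ} (hz : z ∈ U) : deriv f z ≠ 0 := by
  intro hder
  have hUz : U ∈ 𝓝 z := hU.mem_nhds hz
  have hfa : AnalyticAt ℂ f z := hf.analyticAt hUz
  have hga : AnalyticAt ℂ (fun x => f x - f z) z := hfa.sub analyticAt_const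
  have hnz : ¬ ∀ᶠ x in 𝓝 z, f x - f z = 0 := by
    intro hev
    have h2 : ∀ᶠ x in 𝓝[≠] z, f x - f z = 0 := hev.filter_mono nhdsWithin_le_nhds
    have h3 : ∀ᶠ x in 𝓝[≠] z, x ∈ U := mem_nhdsWithin_of_mem_nhds hUz
    have h4 : ∀ᶠ x in 𝓝[≠] z, x ≠ z := eventually_mem_nhdsWithin
    obtain ⟨x, hx1, hx2, hx3⟩ := (h2.and (h3.and h4)).exists
    exact hx3 (hi hx2 hz (sub_eq_zero.1 hx1))
  obtain ⟨n, h, hha, hhz, hev⟩ := hga.exists_eventuallyEq_pow_smul_nonzero_iff.2 hnz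
  -- n ≥ 2
  have hn0 : n ≠ 0 := by
    rintro rfl
    have := hev.self_of_nhds
    simp at this
    exact hhz this.symm
  have hn1 : n ≠ 1 := by
    rintro rfl
    have h1 : HasDerivAt (fun x => f x - f z) 0 z := by
      have := hfa.differentiableAt.hasDerivAt.sub_const (f z)
      rwa [hder] at this
    have h2 : HasDerivAt (fun x => (x - z) ^ 1 • h x) (1 * h z + (z - z) * deriv h z) z := by
      have h4 : HasDerivAt (fun x => (x - z) * h x) (1 * h z + (z - z) * deriv h z) z :=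
        ((hasDerivAt_id z).sub_const z).mul hha.differentiableAt.hasDerivAt
      have h5 : (fun x => (x - z) ^ 1 • h x) = fun x => (x - z) * h x := by
        funext x; rw [pow_one, smul_eq_mul]
      rw [h5]; exact h4
    have h3 : HasDerivAt (fun x => (x - z) ^ 1 • h x) 0 z :=
      h1.congr_of_eventuallyEq (EventuallyEq.symm hev)
    have := h2.unique h3
    simp at this
    exact hhz this
  have hn2 : 2 ≤ n := by omega
  have hnC : (n : ℂ) ≠ 0 := Nat.cast_ne_zero.2 hn0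
  -- n-th root
  set c : ℂ := (h z) ^ ((n : ℂ)⁻¹) with hc
  have hcn : c ^ n = h z := by rw [hc]; exact cpow_nat_inv_pow _ hn0
  have hc0 : c ≠ 0 := by
    intro h0
    rw [h0, zero_pow hn0] at hcn
    exact hhz hcn.symm
  set k : ℂ → ℂ := fun x => c * exp (log (h x / h z) / n) with hk
  have hslit : h z / h z ∈ slitPlane := by rw [div_self hhz]; exact one_mem_slitPlane
  have hka : AnalyticAt ℂ k z := by
    have h1 : AnalyticAt ℂ (fun x => h x / h z) z := hha.div_const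
    have h2 : AnalyticAt ℂ (fun x => log (h x / h z)) z := h1.clog hslit
    exact analyticAt_const.mul (h2.div_const.cexp)
  have hkn : ∀ᶠ x in 𝓝 z, (k x) ^ n = h x := by
    have : ∀ᶠ x in 𝓝 z, h x ≠ 0 := hha.continuousAt.eventually_ne hhz
    filter_upwards [this] with x hx
    have hq : h x / h z ≠ 0 := div_ne_zero hx hhz
    simp only [hk]
    rw [mul_pow, hcn, ← exp_nat_mul, mul_div_cancel₀ _ hnC, exp_log hq]
    field_simp
  have hkz : k z = c := by simp [hk, div_self hhz]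
  set φ : ℂ → ℂ := fun x => (x - z) * k x with hφ
  have hφa : AnalyticAt ℂ φ z := (analyticAt_id.sub analyticAt_const).mul hka
  have hφd : HasDerivAt φ c z := by
    have := ((hasDerivAt_id z).sub_const z).mul hka.differentiableAt.hasDerivAt
    simp only [id] at this
    have h2 : HasDerivAt φ (1 * k z + (z - z) * deriv k z) z := this
    rw [hkz] at h2
    simpa using h2
  have hφs : HasStrictDerivAt φ c z := by
    have := hφa.hasStrictDerivAt
    rwa [hφd.deriv] at this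
  have hφz : φ z = 0 := by simp [hφ]
  have hmap : map φ (𝓝 z) = 𝓝 0 := by
    have := hφs.map_nhds_eq hc0
    rwa [hφz] at this
  have hS : {x | x ∈ U ∧ f x - f z = (φ x) ^ n} ∈ 𝓝 z := by
    filter_upwards [hUz, hev, hkn] with x hx1 hx2 hx3
    refine ⟨hx1, ?_⟩
    rw [hx2, smul_eq_mul, hφ, mul_pow, hx3]
  have hI : φ '' {x | x ∈ U ∧ f x - f z = (φ x) ^ n} ∈ 𝓝 (0:ℂ) := by
    rw [← hmap]; exact image_mem_map hS
  set ω : ℂ := exp (2 * Real.pi * I / n) with hω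
  have hprim : IsPrimitiveRoot ω n := Complex.isPrimitiveRoot_exp n hn0
  have hω1 : ω ≠ 1 := hprim.ne_one (by omega)
  have hωn : ω ^ n = 1 := hprim.pow_eq_one
  have hω0 : ω ≠ 0 := exp_ne_zero _
  have hI2 : {ζ | ω * ζ ∈ φ '' {x | x ∈ U ∧ f x - f z = (φ x) ^ n}} ∈ 𝓝 (0:ℂ) := by
    have hcont : ContinuousAt (fun ζ : ℂ => ω * ζ) 0 := by fun_prop
    have : φ '' {x | x ∈ U ∧ f x - f z = (φ x) ^ n} ∈ 𝓝 (ω * 0) := by rw [mul_zero]; exact hI
    exact hcont this
  have h5 : ∀ᶠ ζ in 𝓝[≠] (0:ℂ), ζ ∈ φ '' {x | x ∈ U ∧ f x - f z = (φ x) ^ n} :=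
    mem_nhdsWithin_of_mem_nhds hI
  have h6 : ∀ᶠ ζ in 𝓝[≠] (0:ℂ), ω * ζ ∈ φ '' {x | x ∈ U ∧ f x - f z = (φ x) ^ n} :=
    mem_nhdsWithin_of_mem_nhds hI2
  have h7 : ∀ᶠ ζ in 𝓝[≠] (0:ℂ), ζ ≠ 0 := eventually_mem_nhdsWithin
  obtain ⟨ζ, ⟨x, ⟨hxU, hx⟩, hxζ⟩, ⟨y, ⟨hyU, hy⟩, hyζ⟩, hζ⟩ := (h5.and (h6.and h7)).exists
  have hxy : f x = f y := by
    have : f x - f z = f y - f z := by
      rw [hx, hy, hxζ, hyζ, mul_pow, hωn, one_mul]
    exact sub_left_injective this
  have hxy2 : x = y := hi hxU hyU hxy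
  rw [hxy2, hyζ] at hxζ
  have : (ω - 1) * ζ = 0 := by rw [sub_mul, one_mul, hxζ, sub_self]
  rcases mul_eq_zero.1 this with h8 | h8
  · exact hω1 (sub_eq_zero.1 h8)
  · exact hζ h8

end H50.AT
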