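import Mathlib

/-!
# Area theorem, part A1: the regular part `E` of `1/g`

`g = z u(z)` with `u = dslope g 0`, `u(0) = g'(0) = 1`, `u ≠ 0` on the disc (injectivity of `g`),
`E = dslope (1/u) 0`.
-/

open Complex Metric Set

namespace H50.AT

theorem exists_E {g : ℂ → ℂ} (hd : DifferentiableOn ℂ g (ball 0 1)) (hi : InjOn g (ball 0 1))
    (h0 : g 0 = 0) (h1 : deriv g 0 = 1) :
    ∃ E : ℂ → ℂ, DifferentiableOn ℂ E (ball 0 1) ∧
      (∀ z ∈ ball (0:ℂ) 1, z ≠ 0 → (g z)⁻¹ = z⁻¹ + E z) ∧ E 0 = -(deriv (deriv g) 0) / 2 := by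
  have hnh : ball (0:ℂ) 1 ∈ nhds (0:ℂ) := ball_mem_nhds 0 one_pos
  have h0m : (0:ℂ) ∈ ball (0:ℂ) 1 := mem_ball_self one_pos
  set u : ℂ → ℂ := dslope g 0 with hu
  have hud : DifferentiableOn ℂ u (ball 0 1) := (Complex.differentiableOn_dslope hnh).2 hd
  have hu0 : u 0 = 1 := by rw [hu, dslope_same, h1]
  have hgu : ∀ z, g z = z * u z := by
    intro z
    have := sub_smul_dslope g 0 z
    rw [h0, sub_zero, sub_zero, smul_eq_mul] at this
    exact this.symm
  have hune : ∀ z ∈ ball (0:ℂ) 1, u z ≠ 0 := by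
    intro z hz hz0
    by_cases hzz : z = 0
    · rw [hzz, hu0] at hz0
      exact one_ne_zero hz0
    · have : g z = g 0 := by rw [hgu z, hz0, mul_zero, h0]
      exact hzz (hi hz h0m this)
  have hinv : DifferentiableOn ℂ (fun z => (u z)⁻¹) (ball 0 1) := hud.inv hune
  refine ⟨dslope (fun z => (u z)⁻¹) 0, (Complex.differentiableOn_dslope hnh).2 hinv, ?_, ?_⟩
  · intro z hz hz0
    have := sub_smul_dslope (fun z => (u z)⁻¹) 0 z
    simp only [hu0, inv_one, sub_zero, smul_eq_mul] at this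
    have huz := hune z hz
    have h2 : dslope (fun z => (u z)⁻¹) 0 z = ((u z)⁻¹ - 1) / z := by
      rw [← this]; field_simp
    rw [h2, hgu z]
    field_simp
    ring
  · rw [dslope_same]
    have hua : AnalyticAt ℂ u 0 := hud.analyticAt hnh
    have hder : HasDerivAt (fun z => (u z)⁻¹) (-(deriv u 0) / (u 0) ^ 2) 0 :=
      (hua.differentiableAt.hasDerivAt).inv (hune 0 h0m)
    rw [hder.deriv, hu0]
    -- g = z u, g' = u + z u', g''(0) = 2 u'(0)
    have hg1 : ∀ z ∈ ball (0:ℂ) 1, deriv g z = u z + z * deriv u z := by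
      intro z hz
      have hgf : g = fun z => z * u z := funext hgu
      have hdu : DifferentiableAt ℂ u z := hud.differentiableAt (isOpen_ball.mem_nhds hz)
      conv_lhs => rw [hgf]
      have := (hasDerivAt_id z).mul hdu.hasDerivAt
      simp only [id] at this
      have h3 : HasDerivAt (fun z => z * u z) (1 * u z + z * deriv u z) z := this
      rw [h3.deriv]; ring
    have hev : deriv g =ᶠ[nhds 0] fun z => u z + z * deriv u z :=
      Filter.eventually_of_mem hnh hg1
    have hdd : DifferentiableAt ℂ (deriv u) 0 := hua.deriv.differentiableAt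
    have h4 : HasDerivAt (fun z => u z + z * deriv u z)
        (deriv u 0 + (1 * deriv u 0 + 0 * deriv (deriv u) 0)) 0 :=
      hua.differentiableAt.hasDerivAt.add ((hasDerivAt_id (0:ℂ)).mul hdd.hasDerivAt)
    rw [hev.deriv_eq, h4.deriv]
    ring

end H50.AT
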